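import Pool.Agent.Q109.Block3

/-!
Graphs of maximum degree at most three have 5-blocking partitions of bounded width.
-/

set_option autoImplicit false

namespace Pool.Agent.Results.MP_cb714e_co.FiveBlocking

open Q109.Block3

/-- There is a constant `c` such that every finite graph of maximum degree at most `3` has a
connected partition into parts of at most `c` vertices for which every clean path has length at
most `5`. -/
theorem result : ∃ c : ℕ, 1 ≤ c ∧ ∀ (V : Type) [Finite V] (G : SimpleGraph V),
    (∀ v, (G.neighborSet v).ncard ≤ 3) →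
    ∃ R : Setoid V, IsConnectedPartition G R ∧ (∀ v, {w | R v w}.ncard ≤ c) ∧
      IsBlocking G R 5 := by
  obtain ⟨M, hM⟩ : ∃ M, M = 6 * L + 4 := ⟨_, rfl⟩
  exact ⟨3 ^ M, Nat.one_le_pow _ _ (by omega), fun V _ G hG => main hM G hG⟩

end Pool.Agent.Results.MP_cb714e_co.FiveBlocking
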